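import Pool.Agent.H73.KG.Stmts

/-! Project KG, module GIN. -/

set_option autoImplicit false

open MeasureTheory Set Filter Topology
open scoped ContDiff

namespace Pool.Agent.H73.KG

open Pool.Agent.H84 Pool.Agent.H84.Sym Pool.Agent.H84.Sym.P2x Pool.Agent.H19.KL

theorem GIN_t3_swap12 {E : Type} [NormedAddCommGroup E] [InnerProductSpace ℝ E]
    [FiniteDimensional ℝ E] [MeasurableSpace E] [BorelSpace E] (U : E → ℝ) (u v w : E) :
    t3 U u v w = t3 U v u w := by
  unfold t3
  congr 1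
  funext x
  ring

theorem GIN_t3_swap23 {E : Type} [NormedAddCommGroup E] [InnerProductSpace ℝ E]
    [FiniteDimensional ℝ E] [MeasurableSpace E] [BorelSpace E] (U : E → ℝ) (u v w : E) :
    t3 U u v w = t3 U u w v := by
  unfold t3
  congr 1
  funext x
  ring

theorem gin_thm (E : Type) [NormedAddCommGroup E] [InnerProductSpace ℝ E]
    [FiniteDimensional ℝ E] [MeasurableSpace E] [BorelSpace E] (h1 : BASStmt E)
    (h2 : PWBStmt E) (h3 : EIGStmt E) (h4 : WHIStmt E) (h5 : MTIStmt) (h6 : FPBStmt E)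
    (h7 : INVStmt E) : GINStmt E := by
  intro U t hU s K hs hK ι _ _ b p hp θ
  have ht : 0 < t := by
    obtain ⟨⟨C, hC⟩, _⟩ := hU
    exact hC.pos
  have hP : ∀ r η, 0 ≤ r → PP (pw U r η) (t + r) := (h2 U t hU).1
  have hV : PP (pw U s θ) s := h1.1 _ _ _ (hP s θ hs.le) hs (by linarith)
  obtain ⟨c, lam, hlam, hc⟩ := h3 _ _ hV ι b
  have hinv : ∀ r η, 0 ≤ r → FP p (cm b (pw U r η)) = FP p (cm c (pw U r η)) :=
    fun r η hr => h7.2 _ _ (hP r η hr) ι b c p
  have e1 : gen b U (fun s θ => FP p (cm b (pw U s θ))) s θ =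
      gen c U (fun s θ => FP p (cm b (pw U s θ))) s θ :=
    h7.1 U _ (h6 U t hU ι b p hp).1 ι b c s θ hs
  have e2 : gen c U (fun s θ => FP p (cm b (pw U s θ))) s θ =
      gen c U (fun s θ => FP p (cm c (pw U s θ))) s θ := by
    have e3 : (fun η => FP p (cm b (pw U s η))) = fun η => FP p (cm c (pw U s η)) :=
      funext fun η => hinv s η hs.le
    have e4 : deriv (fun r => FP p (cm b (pw U r θ))) s =
        deriv (fun r => FP p (cm c (pw U r θ))) s := by
      apply Filter.EventuallyEq.deriv_eq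
      filter_upwards [Ioi_mem_nhds hs] with r hr
      exact hinv r θ (le_of_lt hr)
    unfold gen
    simp only [e3, e4]
  rw [e1, e2, (h6 U t hU ι c p hp).2 s θ hs, hinv s θ hs.le, hc]
  exact h5 ι lam (fun i j k => t3 (pw U s θ) (c i) (c j) (c k)) K p hlam hp
    (fun i j k => ⟨GIN_t3_swap12 _ _ _ _, GIN_t3_swap23 _ _ _ _⟩)
    (h4 _ _ _ hV hK ι c lam hlam hc)

end Pool.Agent.H73.KG
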