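import Pool.Agent.H73.KG.Stmts

/-! Project KG, module KFB. -/

set_option autoImplicit false

open MeasureTheory Set Filter Topology
open scoped ContDiff

namespace Pool.Agent.H73.KG

open Pool.Agent.H84 Pool.Agent.H84.Sym Pool.Agent.H84.Sym.P2x Pool.Agent.H19.KL

theorem kfb_thm (h1 : ∀ (E : Type) [NormedAddCommGroup E] [InnerProductSpace ℝ E]
    [FiniteDimensional ℝ E] [MeasurableSpace E] [BorelSpace E], HBBStmt E)
    (h2 : TRQStmt) : KFBStmt := by
  obtain ⟨C, hC, hQ⟩ := h2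
  refine ⟨16 * C, by linarith, ?_⟩
  intro E _ _ _ _ _ U t hU ht ι _ _ b B hB hB5 m β hm φ hφ
  obtain ⟨hi, hb⟩ := hQ E U t hU ht ι b B hB hB5
  refine (h1 E U t hU ι b m β hm hi φ hφ).trans ?_
  have hβ : 0 ≤ 16 * β ^ 2 := by positivity
  calc _ ≤ 16 * β ^ 2 * (C * (Fintype.card ι + (∑ i, ∑ j, (cm b U i j - B i j) ^ 2) / t ^ 4)) :=
        mul_le_mul_of_nonneg_left hb hβ
    _ = _ := by ring

end Pool.Agent.H73.KG
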